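import Pool.Agent.Helper71.CH.Basic

/-!
# Project CH, module CH-B: the weights still to come
-/

set_option autoImplicit false

namespace Pool.Agent.Helper75.CG

open scoped Classical
open Finset
open Pool.Agent.Helper65.CliqueGame

namespace Setup

variable {V Δ : Type} [Fintype V] [Fintype Δ] (X : Setup V Δ)

theorem wE_succ {j : ℕ} (hj : j < X.R) (S : Finset V) :
    X.wE j S = 2 ^ (X.ecr j S) * X.wS j S := by
  unfold wE wS
  rw [Finset.prod_eq_prod_Ico_succ_bot hj]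
  unfold wE
  ring

theorem wE_R (S : Finset V) : X.wE X.R S = 2 ^ (X.ecr X.R S) := by
  unfold wE
  simp

theorem wS_eq (j : ℕ) (S : Finset V) : X.wS j S = (X.NN j : ℝ) ^ (X.ff j S) * X.wT j S := by
  unfold wS wT
  ring

namespace H61W

theorem NN_one (j : ℕ) : (1 : ℝ) ≤ X.NN j := by
  exact_mod_cast X.NN_pos j

theorem m_one : (1 : ℝ) ≤ (X.m : ℝ) + 1 := by
  have : (0 : ℝ) ≤ X.m := Nat.cast_nonneg _
  linarith

theorem NNr_pos (j : ℕ) : (0 : ℝ) < X.NN j := lt_of_lt_of_le one_pos (NN_one X j)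

end H61W

open H61W

theorem wE_pos (j : ℕ) (S : Finset V) : 0 < X.wE j S := by
  unfold wE
  refine mul_pos (Finset.prod_pos fun i _ => ?_) (by positivity)
  have := NNr_pos X i
  positivity

theorem wS_pos (j : ℕ) (S : Finset V) : 0 < X.wS j S := by
  unfold wS
  have := NNr_pos X j
  have := X.wE_pos (j + 1) S
  positivity

theorem wT_pos (j : ℕ) (S : Finset V) : 0 < X.wT j S := by
  unfold wT
  have := X.wE_pos (j + 1) S
  positivity

theorem prod_le_wE (j : ℕ) (S : Finset V) :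
    ∏ i ∈ Ico j X.R, (X.NN i : ℝ) ^ (X.ff i S) ≤ X.wE j S := by
  unfold wE
  have h1 : ∏ i ∈ Ico j X.R, (X.NN i : ℝ) ^ (X.ff i S) ≤
      ∏ i ∈ Ico j X.R, ((2 : ℝ) ^ (X.ecr i S) * (X.NN i : ℝ) ^ (X.ff i S) *
        ((X.m : ℝ) + 1) ^ (X.st i S)) := by
    apply Finset.prod_le_prod
    · intro i _
      have := NNr_pos X i
      positivity
    · intro i _
      have h0 := NNr_pos X i
      have h2 : (1 : ℝ) ≤ (2 : ℝ) ^ (X.ecr i S) := one_le_pow₀ (by norm_num)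
      have h3 : (1 : ℝ) ≤ ((X.m : ℝ) + 1) ^ (X.st i S) := one_le_pow₀ (m_one X)
      have h4 : (0 : ℝ) ≤ (X.NN i : ℝ) ^ (X.ff i S) := by positivity
      calc (X.NN i : ℝ) ^ (X.ff i S) = 1 * (X.NN i : ℝ) ^ (X.ff i S) * 1 := by ring
        _ ≤ (2 : ℝ) ^ (X.ecr i S) * (X.NN i : ℝ) ^ (X.ff i S) * ((X.m : ℝ) + 1) ^ (X.st i S) := by
          gcongr
  have h5 : (1 : ℝ) ≤ (2 : ℝ) ^ (X.ecr X.R S) := one_le_pow₀ (by norm_num)
  have h6 : (0 : ℝ) ≤ ∏ i ∈ Ico j X.R, ((2 : ℝ) ^ (X.ecr i S) * (X.NN i : ℝ) ^ (X.ff i S) *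
        ((X.m : ℝ) + 1) ^ (X.st i S)) := by
    apply Finset.prod_nonneg
    intro i _
    have := NNr_pos X i
    positivity
  calc _ ≤ _ := h1
    _ = (∏ i ∈ Ico j X.R, ((2 : ℝ) ^ (X.ecr i S) * (X.NN i : ℝ) ^ (X.ff i S) *
        ((X.m : ℝ) + 1) ^ (X.st i S))) * 1 := by ring
    _ ≤ _ := by gcongr

theorem prod_le_wS {j : ℕ} (hj : j < X.R) (S : Finset V) :
    ∏ i ∈ Ico j X.R, (X.NN i : ℝ) ^ (X.ff i S) ≤ X.wS j S := by
  unfold wS
  rw [Finset.prod_eq_prod_Ico_succ_bot hj]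
  have h1 := X.prod_le_wE (j + 1) S
  have h3 : (1 : ℝ) ≤ ((X.m : ℝ) + 1) ^ (X.st j S) := one_le_pow₀ (m_one X)
  have h0 := NNr_pos X j
  have h2 := (X.wE_pos (j + 1) S).le
  calc (X.NN j : ℝ) ^ (X.ff j S) * ∏ i ∈ Ico (j + 1) X.R, (X.NN i : ℝ) ^ (X.ff i S)
      ≤ (X.NN j : ℝ) ^ (X.ff j S) * X.wE (j + 1) S := by gcongr
    _ = (X.NN j : ℝ) ^ (X.ff j S) * 1 * X.wE (j + 1) S := by ring
    _ ≤ _ := by gcongr

theorem prod_le_wT {j : ℕ} (_hj : j < X.R) (S : Finset V) :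
    ∏ i ∈ Ico (j + 1) X.R, (X.NN i : ℝ) ^ (X.ff i S) ≤ X.wT j S := by
  unfold wT
  have h1 := X.prod_le_wE (j + 1) S
  have h3 : (1 : ℝ) ≤ ((X.m : ℝ) + 1) ^ (X.st j S) := one_le_pow₀ (m_one X)
  have h2 := (X.wE_pos (j + 1) S).le
  calc ∏ i ∈ Ico (j + 1) X.R, (X.NN i : ℝ) ^ (X.ff i S)
      ≤ X.wE (j + 1) S := h1
    _ = 1 * X.wE (j + 1) S := by ring
    _ ≤ _ := by gcongr

namespace H61W

theorem ecr_mono (i : ℕ) {S T : Finset V} (h : S ⊆ T) : X.ecr i S ≤ X.ecr i T := by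
  unfold ecr
  apply Finset.card_le_card
  intro e he
  rw [Finset.mem_filter] at he ⊢
  exact ⟨he.1, he.2.trans h⟩

theorem later_mono (i : ℕ) {S T : Finset V} (h : S ⊆ T) : X.later i S ≤ X.later i T := by
  unfold later
  exact Finset.card_le_card (Finset.filter_subset_filter _ h)

/-- The districts of generation `i` completed between `S` and `T`. -/
noncomputable def Ci (S T : Finset V) (i : ℕ) : Finset Δ :=
  (X.compl S T).filter (fun δ => X.gen δ = i)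

theorem part_mono {S T : Finset V} (h : S ⊆ T) (δ : Δ) : X.part S δ ⊆ X.part T δ :=
  Finset.filter_subset_filter _ h

theorem ff_add (i : ℕ) {S T : Finset V} (hT : T ∈ X.SS0) (h : S ⊆ T) :
    (Ci X S T i).card + X.ff i S ≤ X.ff i T := by
  unfold ff
  rw [← Finset.card_union_of_disjoint]
  · apply Finset.card_le_card
    intro δ hδ
    rw [Finset.mem_union] at hδ
    rw [Finset.mem_filter]
    rcases hδ with hδ | hδ
    · unfold Ci compl at hδ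
      simp only [Finset.mem_filter, Finset.mem_univ, true_and] at hδ
      refine ⟨Finset.mem_univ _, hδ.2, ?_⟩
      rw [hδ.1.2.2, hδ.2]
    · simp only [Finset.mem_filter, Finset.mem_univ, true_and] at hδ
      refine ⟨Finset.mem_univ _, hδ.1, le_antisymm ?_ ?_⟩
      · have := X.part_card_le hT δ
        rwa [hδ.1] at this
      · rw [← hδ.2]
        exact Finset.card_le_card (part_mono X h δ)
  · rw [Finset.disjoint_left]
    intro δ h1 h2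
    unfold Ci compl at h1
    simp only [Finset.mem_filter, Finset.mem_univ, true_and] at h1 h2
    have h3 := h1.1.2.1
    rw [h1.2, h2.2] at h3
    exact lt_irrefl _ h3

theorem st_mono (i : ℕ) {S T : Finset V} (hT : T ∈ X.SS0) (h : S ⊆ T) :
    X.st i S ≤ X.st i T := by
  unfold st
  exact Nat.mul_le_mul (le_trans (Nat.le_add_left _ _) (ff_add X i hT h)) (later_mono X i h)

theorem core (k : ℕ) {S T : Finset V} (hT : T ∈ X.SS0) (h : S ⊆ T) :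
    (∏ i ∈ Ico k X.R, (X.NN i : ℝ) ^ (Ci X S T i).card) * X.wE k S ≤ X.wE k T := by
  unfold wE
  rw [← mul_assoc, ← Finset.prod_mul_distrib]
  have h1 : ∏ i ∈ Ico k X.R, ((X.NN i : ℝ) ^ (Ci X S T i).card *
      ((2 : ℝ) ^ (X.ecr i S) * (X.NN i : ℝ) ^ (X.ff i S) * ((X.m : ℝ) + 1) ^ (X.st i S))) ≤
      ∏ i ∈ Ico k X.R, ((2 : ℝ) ^ (X.ecr i T) * (X.NN i : ℝ) ^ (X.ff i T) *
        ((X.m : ℝ) + 1) ^ (X.st i T)) := by
    apply Finset.prod_le_prod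
    · intro i _
      have := NNr_pos X i
      positivity
    · intro i _
      have h0 := NNr_pos X i
      have h2 : (2 : ℝ) ^ (X.ecr i S) ≤ (2 : ℝ) ^ (X.ecr i T) :=
        pow_le_pow_right₀ (by norm_num) (ecr_mono X i h)
      have h3 : ((X.m : ℝ) + 1) ^ (X.st i S) ≤ ((X.m : ℝ) + 1) ^ (X.st i T) :=
        pow_le_pow_right₀ (m_one X) (st_mono X i hT h)
      have h4 : (X.NN i : ℝ) ^ (Ci X S T i).card * (X.NN i : ℝ) ^ (X.ff i S) ≤
          (X.NN i : ℝ) ^ (X.ff i T) := by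
        rw [← pow_add]
        exact pow_le_pow_right₀ (NN_one X i) (ff_add X i hT h)
      calc (X.NN i : ℝ) ^ (Ci X S T i).card *
          ((2 : ℝ) ^ (X.ecr i S) * (X.NN i : ℝ) ^ (X.ff i S) * ((X.m : ℝ) + 1) ^ (X.st i S))
          = (2 : ℝ) ^ (X.ecr i S) * ((X.NN i : ℝ) ^ (Ci X S T i).card *
            (X.NN i : ℝ) ^ (X.ff i S)) * ((X.m : ℝ) + 1) ^ (X.st i S) := by ring
        _ ≤ _ := by gcongr
  have h5 : (2 : ℝ) ^ (X.ecr X.R S) ≤ (2 : ℝ) ^ (X.ecr X.R T) :=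
    pow_le_pow_right₀ (by norm_num) (ecr_mono X X.R h)
  have h6 : (0 : ℝ) ≤ ∏ i ∈ Ico k X.R, ((2 : ℝ) ^ (X.ecr i T) * (X.NN i : ℝ) ^ (X.ff i T) *
        ((X.m : ℝ) + 1) ^ (X.st i T)) := by
    apply Finset.prod_nonneg
    intro i _
    have := NNr_pos X i
    positivity
  exact mul_le_mul h1 h5 (by positivity) h6

theorem prod_compl {k : ℕ} {S T : Finset V} (hc : ∀ δ ∈ X.compl S T, k ≤ X.gen δ) :
    ∏ δ ∈ X.compl S T, (X.NN (X.gen δ) : ℝ) =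
      ∏ i ∈ Ico k X.R, (X.NN i : ℝ) ^ (Ci X S T i).card := by
  rw [← Finset.prod_fiberwise_of_maps_to (s := X.compl S T) (t := Ico k X.R)
    (g := X.gen) (fun δ hδ => Finset.mem_Ico.mpr ⟨hc δ hδ, X.compl_lt hδ⟩)]
  apply Finset.prod_congr rfl
  intro i _
  rw [← Finset.prod_const]
  apply Finset.prod_congr rfl
  intro δ hδ
  rw [(Finset.mem_filter.mp hδ).2]

end H61W

theorem wE_mono {j : ℕ} (_hj : j ≤ X.R) {S T : Finset V} (hT : T ∈ X.SS0) (hST : S ⊆ T)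
    (hc : ∀ δ ∈ X.compl S T, j ≤ X.gen δ) :
    (∏ δ ∈ X.compl S T, (X.NN (X.gen δ) : ℝ)) * X.wE j S ≤ X.wE j T := by
  rw [prod_compl X hc]
  exact core X j hT hST

theorem wS_mono {j : ℕ} (hj : j < X.R) {S T : Finset V} (hT : T ∈ X.SS0) (hST : S ⊆ T)
    (hc : ∀ δ ∈ X.compl S T, j ≤ X.gen δ) :
    (∏ δ ∈ X.compl S T, (X.NN (X.gen δ) : ℝ)) * X.wS j S ≤ X.wS j T := by
  rw [prod_compl X hc, Finset.prod_eq_prod_Ico_succ_bot hj]
  unfold wS
  have h1 := core X (j + 1) hT hST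
  have h0 := NNr_pos X j
  have h3 : ((X.m : ℝ) + 1) ^ (X.st j S) ≤ ((X.m : ℝ) + 1) ^ (X.st j T) :=
    pow_le_pow_right₀ (m_one X) (st_mono X j hT hST)
  have h4 : (X.NN j : ℝ) ^ (Ci X S T j).card * (X.NN j : ℝ) ^ (X.ff j S) ≤
      (X.NN j : ℝ) ^ (X.ff j T) := by
    rw [← pow_add]
    exact pow_le_pow_right₀ (NN_one X j) (ff_add X j hT hST)
  have h5 : (0 : ℝ) ≤ (∏ i ∈ Ico (j + 1) X.R, (X.NN i : ℝ) ^ (Ci X S T i).card) *
      X.wE (j + 1) S := by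
    have := X.wE_pos (j + 1) S
    have h6 : (0 : ℝ) ≤ ∏ i ∈ Ico (j + 1) X.R, (X.NN i : ℝ) ^ (Ci X S T i).card := by
      apply Finset.prod_nonneg
      intro i _
      positivity
    positivity
  calc ((X.NN j : ℝ) ^ (Ci X S T j).card * ∏ i ∈ Ico (j + 1) X.R,
        (X.NN i : ℝ) ^ (Ci X S T i).card) *
        ((X.NN j : ℝ) ^ (X.ff j S) * ((X.m : ℝ) + 1) ^ (X.st j S) * X.wE (j + 1) S)
      = ((X.NN j : ℝ) ^ (Ci X S T j).card * (X.NN j : ℝ) ^ (X.ff j S)) *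
        ((X.m : ℝ) + 1) ^ (X.st j S) * ((∏ i ∈ Ico (j + 1) X.R,
        (X.NN i : ℝ) ^ (Ci X S T i).card) * X.wE (j + 1) S) := by ring
    _ ≤ (X.NN j : ℝ) ^ (X.ff j T) * ((X.m : ℝ) + 1) ^ (X.st j T) * X.wE (j + 1) T := by
      gcongr

theorem wT_mono {j : ℕ} (_hj : j < X.R) {S T : Finset V} (hT : T ∈ X.SS0) (hST : S ⊆ T)
    (hc : ∀ δ ∈ X.compl S T, j + 1 ≤ X.gen δ) :
    (∏ δ ∈ X.compl S T, (X.NN (X.gen δ) : ℝ)) * X.wT j S ≤ X.wT j T := by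
  rw [prod_compl X hc]
  unfold wT
  have h1 := core X (j + 1) hT hST
  have h3 : ((X.m : ℝ) + 1) ^ (X.st j S) ≤ ((X.m : ℝ) + 1) ^ (X.st j T) :=
    pow_le_pow_right₀ (m_one X) (st_mono X j hT hST)
  have h5 : (0 : ℝ) ≤ (∏ i ∈ Ico (j + 1) X.R, (X.NN i : ℝ) ^ (Ci X S T i).card) *
      X.wE (j + 1) S := by
    have := X.wE_pos (j + 1) S
    have h6 : (0 : ℝ) ≤ ∏ i ∈ Ico (j + 1) X.R, (X.NN i : ℝ) ^ (Ci X S T i).card := by
      apply Finset.prod_nonneg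
      intro i _
      positivity
    positivity
  calc (∏ i ∈ Ico (j + 1) X.R, (X.NN i : ℝ) ^ (Ci X S T i).card) *
        (((X.m : ℝ) + 1) ^ (X.st j S) * X.wE (j + 1) S)
      = ((X.m : ℝ) + 1) ^ (X.st j S) * ((∏ i ∈ Ico (j + 1) X.R,
        (X.NN i : ℝ) ^ (Ci X S T i).card) * X.wE (j + 1) S) := by ring
    _ ≤ ((X.m : ℝ) + 1) ^ (X.st j T) * X.wE (j + 1) T := by
      gcongr

end Setup

end Pool.Agent.Helper75.CG
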