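import Pool.Agent.Helper14.CG.Phase
import Pool.Agent.Helper61.CH.Weights
import Pool.Agent.Helper87.CH.Cost

/-!
# Project CH, module CH-D: the inner pairs
-/

set_option autoImplicit false

namespace Pool.Agent.Helper75.CG

open scoped Classical
open Finset
open Pool.Agent.Helper65.CliqueGame

namespace Setup

namespace H61S0

variable {V Δ : Type} [Fintype V] [Fintype Δ] (X : Setup V Δ)

theorem w0_pos (S : Finset V) : 0 < X.w0 S := by
  unfold w0
  have := X.wE_pos 0 S
  positivity

theorem cap_pos {G : Finset V → ℝ} {c : ℝ} (hc : 0 < c) (hG : ∀ S, 0 < G S) (S : Finset V) :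
    0 < capOf c G X.w0 S := by
  unfold capOf
  have := w0_pos X S
  have := hG S
  positivity

theorem claims_eq (c : ℝ) (G : Finset V → ℝ) :
    claims ((1 : ℕ) : ℝ) (fun e : Sym2 V => e.toFinset) X.inner (capOf c G X.w0) =
      capOf c G (X.wE 0) := by
  funext S
  unfold claims capOf w0 ein
  have h2 : (1 : ℝ) + ((1 : ℕ) : ℝ) = 2 := by norm_num
  rw [h2]
  have hw := X.wE_pos 0 S
  field_simp

theorem mem_inner {e : Sym2 V} (he : e ∈ X.inner) :
    ∃ x y : V, e = s(x, y) ∧ x ≠ y ∧ X.dis x = X.dis y ∧ ({x, y} : Finset V) ∈ X.SS0 := by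
  induction e using Sym2.ind with
  | _ x y =>
    unfold inner at he
    simp only [Finset.mem_filter, Finset.mem_univ, true_and] at he
    refine ⟨x, y, rfl, fun h => he.1 (by simp [h]), he.2.1 x (by simp) y (by simp), ?_⟩
    have := he.2.2
    rwa [Sym2.toFinset_mk_eq] at this

theorem inner_of {x y : V} (hxy : x ≠ y) (hd : X.dis x = X.dis y)
    (hS : ({x, y} : Finset V) ∈ X.SS0) : s(x, y) ∈ X.inner := by
  unfold inner
  simp only [Finset.mem_filter, Finset.mem_univ, true_and]
  refine ⟨by simpa using hxy, ?_, ?_⟩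
  · intro a ha b hb
    rw [Sym2.mem_iff] at ha hb
    rcases ha with rfl | rfl <;> rcases hb with rfl | rfl <;> simp [hd]
  · rwa [Sym2.toFinset_mk_eq]

theorem inner_card {e : Sym2 V} (he : e ∈ X.inner) : e.toFinset.card = 2 := by
  obtain ⟨x, y, rfl, hxy, _, _⟩ := mem_inner X he
  rw [Sym2.toFinset_mk_eq, Finset.card_pair hxy]

theorem inner_SS0 {e : Sym2 V} (he : e ∈ X.inner) : e.toFinset ∈ X.SS0 := by
  obtain ⟨x, y, rfl, hxy, _, h⟩ := mem_inner X he
  rwa [Sym2.toFinset_mk_eq]

theorem ein_add {S T : Finset V} (h : S ⊆ T) :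
    X.ein T = X.ein S + (X.inner.filter (fun e => e.toFinset ⊆ T ∧ ¬ e.toFinset ⊆ S)).card := by
  unfold ein
  rw [← Finset.card_union_of_disjoint]
  · congr 1
    ext e
    simp only [Finset.mem_filter, Finset.mem_union]
    constructor
    · rintro ⟨h1, h2⟩
      by_cases h3 : e.toFinset ⊆ S
      · exact Or.inl ⟨h1, h3⟩
      · exact Or.inr ⟨h1, h2, h3⟩
    · rintro (⟨h1, h2⟩ | ⟨h1, h2, _⟩)
      · exact ⟨h1, h2.trans h⟩
      · exact ⟨h1, h2⟩
  · rw [Finset.disjoint_left]
    intro e h1 h2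
    exact (Finset.mem_filter.mp h2).2.2 (Finset.mem_filter.mp h1).2

theorem phi0_ne {A : Finset V} (h : X.phi0 A ≠ 0) : X.Adm A := by
  unfold phi0 at h
  by_contra h1
  exact h (if_neg h1)

theorem slopeA {G : Finset V → ℝ} {ν E : ℝ} {zm D : ℕ} (hX : X.Sz G ν E zm D) {c : ℝ}
    (hc : 0 < c) : SlopeA ν X.SS0 X.phi0 (capOf c G X.w0) X.inner
      (fun e : Sym2 V => e.toFinset) ((1 : ℕ) : ℝ) := by
  intro A hA S hS e he hSA hnot
  have hAdm := phi0_ne X hA
  have hSne : S.Nonempty := by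
    unfold SS0 at hS
    exact (Finset.mem_filter.mp hS).2.1
  have hT : S ∪ e.toFinset ∈ X.SS0 :=
    X.mem_SS0_of_adm hAdm hSA (hSne.mono Finset.subset_union_left)
  refine ⟨hT, ?_⟩
  set T := S ∪ e.toFinset with hTdef
  have hST : S ⊆ T := Finset.subset_union_left
  have hSsT : S ⊂ T := by
    refine Finset.ssubset_iff_subset_ne.mpr ⟨hST, fun h => hnot ?_⟩
    rw [h]
    exact Finset.subset_union_right
  have h1 := ein_add X hST
  have h2 := hX.slope S hS T hT hSsT
  have h3 := X.wE_mono (Nat.zero_le _) hT hST (fun δ _ => Nat.zero_le _)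
  have hwS := X.wE_pos 0 S
  have hwT := X.wE_pos 0 T
  have hGS := hX.pos S
  have hGT := hX.pos T
  set P := ∏ δ ∈ X.compl S T, (X.NN (X.gen δ) : ℝ) with hP
  set a := (X.inner.filter (fun e => e.toFinset ⊆ T ∧ ¬ e.toFinset ⊆ S)).card with ha
  have h4 : (1 : ℝ) + ((1 : ℕ) : ℝ) = 2 := by norm_num
  rw [h4]
  unfold capOf w0
  rw [h1, pow_add]
  have key : G T * X.wE 0 S ≤ ν * G S * X.wE 0 T := by
    have hν := hX.nu0
    calc G T * X.wE 0 S ≤ (ν * G S * P) * X.wE 0 S := by gcongr
      _ = ν * G S * (P * X.wE 0 S) := by ring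
      _ ≤ ν * G S * X.wE 0 T := by gcongr
  have e1 : (2 : ℝ) ^ a * (c * G T / ((2 : ℝ) ^ (X.ein S) * 2 ^ a * X.wE 0 T)) =
      c / 2 ^ (X.ein S) * (G T / X.wE 0 T) := by
    field_simp
  have e2 : ν * (c * G S / ((2 : ℝ) ^ (X.ein S) * X.wE 0 S)) =
      c / 2 ^ (X.ein S) * (ν * G S / X.wE 0 S) := by
    field_simp
  rw [e1, e2]
  apply mul_le_mul_of_nonneg_left _ (by positivity)
  rw [div_le_div_iff₀ hwT hwS]
  exact key

theorem cap_le {G : Finset V → ℝ} {ν E : ℝ} {zm D : ℕ} (hX : X.Sz G ν E zm D) {c : ℝ}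
    (hc : 0 < c) {T : Finset V} (hT : T ∈ X.SS0) (hTc : T.card ≤ 2 * X.m + 2) :
    capOf c G (X.wE 0) T ≤ c * E * (1 / 2) ^ (X.pc 0 T) := by
  unfold capOf
  exact X.cap_bound hX hc (Nat.zero_le _) hT (fun δ h => absurd h (Nat.not_lt_zero _)) hTc
    (X.prod_le_wE 0 T)

theorem gv_le (x : V) : X.gv x ≤ X.R := X.gen_le _

/-- The sum of the errors. -/
theorem err_sum {G : Finset V → ℝ} {ν E : ℝ} {zm D : ℕ} (hX : X.Sz G ν E zm D) {c : ℝ}
    (hc : 0 < c) (Mx : ℕ) (hMx : ∀ i ≤ X.R, X.y i + 2 * X.z i ≤ Mx) :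
    ∑ e ∈ X.inner, (ν * (c * E * (1 / 2) ^ (X.pc 0 e.toFinset)) +
      c * E * (1 / 2) ^ (X.pc 0 e.toFinset + zm) + c * E * (1 / 2) ^ (Mx + D)) ≤
      (X.R + 1) * (c * err ν E zm D) := by
  have hE : 0 < E := lt_of_lt_of_le one_pos hX.E1
  have hν := hX.nu0
  have hmaps : ∀ e ∈ X.inner, e.toFinset.sup X.gv ∈ range (X.R + 1) := by
    intro e _
    rw [Finset.mem_range, Nat.lt_succ_iff]
    exact Finset.sup_le fun x _ => gv_le X x
  rw [← Finset.sum_fiberwise_of_maps_to hmaps]
  have hfib : ∀ i ∈ range (X.R + 1), ∑ e ∈ X.inner.filter (fun e => e.toFinset.sup X.gv = i),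
      (ν * (c * E * (1 / 2) ^ (X.pc 0 e.toFinset)) +
      c * E * (1 / 2) ^ (X.pc 0 e.toFinset + zm) + c * E * (1 / 2) ^ (Mx + D)) ≤
      c * err ν E zm D := by
    intro i hi
    have hi' : i ≤ X.R := Nat.lt_succ_iff.mp (Finset.mem_range.mp hi)
    have hb : ∀ e ∈ X.inner.filter (fun e => e.toFinset.sup X.gv = i),
        (∃ x ∈ e, X.gv x = i) ∧ (ν * (c * E * (1 / 2) ^ (X.pc 0 e.toFinset)) +
        c * E * (1 / 2) ^ (X.pc 0 e.toFinset + zm) + c * E * (1 / 2) ^ (Mx + D)) ≤
        c * E * (1 / 2) ^ (X.y i + 2 * X.z i) * (ν + (1 / 2) ^ zm + (1 / 2) ^ D) := by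
      intro e he
      obtain ⟨he1, he2⟩ := Finset.mem_filter.mp he
      obtain ⟨x, y, rfl, hxy, hd, _⟩ := mem_inner X he1
      have hg : X.gv y = X.gv x := by unfold gv; rw [hd]
      have hsup : X.gv x = i := by
        rw [← he2, Sym2.toFinset_mk_eq]
        simp [hg]
      refine ⟨⟨x, by simp, hsup⟩, ?_⟩
      rw [Sym2.toFinset_mk_eq, X.pc_inner hxy hd, hsup]
      have h3 : ((1 : ℝ) / 2) ^ (Mx + D) ≤ (1 / 2) ^ (X.y i + 2 * X.z i) * (1 / 2) ^ D := by
        rw [← pow_add]
        apply pow_le_pow_of_le_one (by norm_num) (by norm_num)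
        have := hMx i hi'
        omega
      have h4 : c * E * ((1 : ℝ) / 2) ^ (Mx + D) ≤
          c * E * ((1 / 2) ^ (X.y i + 2 * X.z i) * (1 / 2) ^ D) :=
        mul_le_mul_of_nonneg_left h3 (by positivity)
      rw [pow_add (1 / 2 : ℝ) (X.y i + 2 * X.z i) zm]
      nlinarith [h4]
    have hcard : (X.inner.filter (fun e => e.toFinset.sup X.gv = i)).card ≤
        2 ^ (X.y i + 2 * X.z i) := by
      refine le_trans (Finset.card_le_card ?_) (X.card_inner hi')
      intro e he
      exact Finset.mem_filter.mpr ⟨(Finset.mem_filter.mp he).1, (hb e he).1⟩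
    have hQ : 0 ≤ ν + ((1 : ℝ) / 2) ^ zm + (1 / 2) ^ D := by positivity
    calc _ ≤ ∑ e ∈ X.inner.filter (fun e => e.toFinset.sup X.gv = i),
          (c * E * (1 / 2) ^ (X.y i + 2 * X.z i) * (ν + (1 / 2) ^ zm + (1 / 2) ^ D)) :=
          Finset.sum_le_sum fun e he => (hb e he).2
      _ = ((X.inner.filter (fun e => e.toFinset.sup X.gv = i)).card : ℝ) *
          (c * E * (1 / 2) ^ (X.y i + 2 * X.z i) * (ν + (1 / 2) ^ zm + (1 / 2) ^ D)) := by
          rw [Finset.sum_const, nsmul_eq_mul]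
      _ ≤ (2 : ℝ) ^ (X.y i + 2 * X.z i) *
          (c * E * (1 / 2) ^ (X.y i + 2 * X.z i) * (ν + (1 / 2) ^ zm + (1 / 2) ^ D)) := by
          apply mul_le_mul_of_nonneg_right _ (by positivity)
          exact_mod_cast hcard
      _ = c * err ν E zm D := by
          unfold err
          have h5 : (2 : ℝ) ^ (X.y i + 2 * X.z i) * (1 / 2) ^ (X.y i + 2 * X.z i) = 1 := by
            rw [← mul_pow]; norm_num
          linear_combination (c * E * (ν + (1 / 2) ^ zm + (1 / 2) ^ D)) * h5
  calc _ ≤ ∑ _i ∈ range (X.R + 1), c * err ν E zm D := Finset.sum_le_sum hfib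
    _ = (X.R + 1) * (c * err ν E zm D) := by
      rw [Finset.sum_const, Finset.card_range, nsmul_eq_mul]
      push_cast
      ring

end H61S0

open H61S0

theorem step0 (m R : ℕ) (hm : 1 ≤ m) : ∃ K : ℝ, 0 < K ∧ ∀ {V Δ : Type} [Fintype V] [Fintype Δ]
    {n q : ℕ} (X : Setup V Δ) (emb : V ↪ Fin n) (G : Finset V → ℝ) (ν E : ℝ) (zm D : ℕ)
    (c : ℝ), X.m = m → X.R = R → X.Sz G ν E zm D → 0 < c →
    (∀ (M B : Finset (Sym2 (Fin n))) (φ : Finset V → ℝ),
      X.Inv emb 0 (fun _ => ∅) (X.fpE 0) φ M B →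
      PP X.SS0 X.phi0 (capOf c G X.w0) - K * c * err ν E zm D ≤
        PP (X.SSt 0 (fun _ => ∅)) φ (capOf c G (X.wE 0)) →
      MakerWins n m q true M B) →
    MakerWins n m q true ∅ ∅ := by
  obtain ⟨C, hC, ph⟩ := phase m 2 hm
  refine ⟨C * (R + 1), by positivity, ?_⟩
  intro V Δ _ _ n q X emb G ν E zm D c hXm hXR hX hc h
  have hE : 0 < E := lt_of_lt_of_le one_pos hX.E1
  set Mx := (range (X.R + 1)).sup (fun i => X.y i + 2 * X.z i) with hMxdef
  have hMx : ∀ i ≤ X.R, X.y i + 2 * X.z i ≤ Mx := by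
    intro i hi
    exact Finset.le_sup (f := fun i => X.y i + 2 * X.z i)
      (Finset.mem_range.mpr (Nat.lt_succ_iff.mpr hi))
  have hm4 : 4 ≤ 2 * X.m + 2 := by rw [hXm]; omega
  refine ph emb X.SS0 X.inner (fun e : Sym2 V => e.toFinset)
    (fun e => {e.map emb}) 1 m ν (c * E * (1 / 2) ^ (Mx + D))
    (fun e => c * E * (1 / 2) ^ (X.pc 0 e.toFinset))
    (fun e => c * E * (1 / 2) ^ (X.pc 0 e.toFinset + zm)) X.phi0 (capOf c G X.w0) ∅ ∅
    le_rfl hm (by ring) hX.nu0 hX.nu1 (Finset.disjoint_empty_left _) (Finset.empty_subset _)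
    ?_ ?_ ?_ ?_ ?_ ?_ ?_ ?_ ?_ ?_ ?_ ?_ ?_ ?_ ?_
  · intro e he
    exact (inner_card X he).le
  · intro e _
    simp
  · intro e he f hf
    obtain ⟨x, y, rfl, hxy, _, _⟩ := mem_inner X he
    rw [Finset.mem_singleton] at hf
    refine ⟨x, by simp, y, by simp, hxy, ?_⟩
    rw [hf, Sym2.map_mk]
  · intro e _ f _ hef
    rw [Finset.disjoint_singleton]
    exact fun h1 => hef (Sym2.map.injective emb.injective h1)
  · intro A _ e _ x hx y hy hxy
    rw [Finset.mem_singleton] at hxy
    have h1 : s(x, y) = e := by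
      apply Sym2.map.injective emb.injective
      rw [Sym2.map_mk]
      exact hxy
    rw [← h1, Sym2.toFinset_mk_eq]
    intro a ha
    rw [Finset.mem_insert, Finset.mem_singleton] at ha
    rcases ha with rfl | rfl
    · exact hx
    · exact hy
  · intro A
    unfold phi0
    split_ifs <;> norm_num
  · exact cap_pos X hc hX.pos
  · intro A _ x _ y _ _
    exact Finset.notMem_empty _
  · exact slopeA X hX hc
  · intro e he
    refine ⟨inner_SS0 X he, ?_⟩
    rw [claims_eq]
    exact cap_le X hX hc (inner_SS0 X he) (by rw [inner_card X he]; omega)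
  · intro e _
    positivity
  · intro e he f hf hef hA
    obtain ⟨A, hA1, hA2⟩ := hA
    have hne : (e.toFinset ∪ f.toFinset).Nonempty := by
      apply Finset.Nonempty.mono Finset.subset_union_left
      rw [← Finset.card_pos, inner_card X he]
      norm_num
    have hT : e.toFinset ∪ f.toFinset ∈ X.SS0 := X.mem_SS0_of_adm (phi0_ne X hA1) hA2 hne
    refine ⟨hT, ?_⟩
    rw [claims_eq]
    have hcard : (e.toFinset ∪ f.toFinset).card ≤ 2 * X.m + 2 := by
      refine le_trans (Finset.card_union_le _ _) ?_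
      rw [inner_card X he, inner_card X hf]
      omega
    refine le_trans (cap_le X hX hc hT hcard) ?_
    have hss : e.toFinset ⊂ e.toFinset ∪ f.toFinset := by
      refine Finset.ssubset_iff_subset_ne.mpr ⟨Finset.subset_union_left, fun h1 => hef ?_⟩
      have h2 : f.toFinset ⊆ e.toFinset := by
        rw [h1]; exact Finset.subset_union_right
      have h3 : f.toFinset = e.toFinset := by
        apply Finset.eq_of_subset_of_card_le h2
        rw [inner_card X he, inner_card X hf]
      obtain ⟨x, y, rfl, hxy, _, _⟩ := mem_inner X he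
      obtain ⟨x', y', rfl, hxy', _, _⟩ := mem_inner X hf
      rw [Sym2.toFinset_mk_eq, Sym2.toFinset_mk_eq] at h3
      rw [Sym2.eq_iff]
      have hx' : x' ∈ ({x, y} : Finset V) := by rw [← h3]; simp
      have hy' : y' ∈ ({x, y} : Finset V) := by rw [← h3]; simp
      rw [Finset.mem_insert, Finset.mem_singleton] at hx' hy'
      rcases hx' with rfl | rfl <;> rcases hy' with rfl | rfl
      · exact absurd rfl hxy'
      · exact Or.inl ⟨rfl, rfl⟩
      · exact Or.inr ⟨rfl, rfl⟩
      · exact absurd rfl hxy'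
    have hpc := X.pc_lt (j := 0) hX.zm_z hX.zm_y hT
      (fun δ h1 => absurd h1 (Nat.not_lt_zero _)) (fun δ h1 => absurd h1 (Nat.not_lt_zero _)) hss
    apply mul_le_mul_of_nonneg_left _ (by positivity)
    exact pow_le_pow_of_le_one (by norm_num) (by norm_num) hpc
  · positivity
  · intro x y hxy _ hni hA
    obtain ⟨A, hA1, hxA, hyA⟩ := hA
    have hsub : ({x, y} : Finset V) ⊆ A := by
      intro a ha
      rw [Finset.mem_insert, Finset.mem_singleton] at ha
      rcases ha with rfl | rfl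
      · exact hxA
      · exact hyA
    have hT : ({x, y} : Finset V) ∈ X.SS0 :=
      X.mem_SS0_of_adm (phi0_ne X hA1) hsub ⟨x, by simp⟩
    refine ⟨{x, y}, hT, ?_, ?_⟩
    · intro A' _ hx hy a ha
      rw [Finset.mem_insert, Finset.mem_singleton] at ha
      rcases ha with rfl | rfl
      · exact hx
      · exact hy
    · rw [claims_eq]
      refine le_trans (cap_le X hX hc hT (by rw [Finset.card_pair hxy]; omega)) ?_
      have hd : X.dis x ≠ X.dis y := by
        intro hd
        have h1 := hni s(x, y) (inner_of X hxy hd hT)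
        apply h1
        rw [Finset.mem_singleton, Sym2.map_mk]
      rw [X.pc_cross hd (Nat.zero_le _) (Nat.zero_le _)]
      apply mul_le_mul_of_nonneg_left _ (by positivity)
      apply pow_le_pow_of_le_one (by norm_num) (by norm_num)
      have hle : Mx ≤ X.y (X.gv x) + X.z (X.gv x) + (X.y (X.gv y) + X.z (X.gv y)) - D := by
        apply Finset.sup_le
        intro i hi
        have := hX.g0 i (Nat.lt_succ_iff.mp (Finset.mem_range.mp hi)) (X.gv x) (gv_le X x)
          (X.gv y) (gv_le X y)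
        omega
      have h0 := hX.g0 0 (Nat.zero_le _) (X.gv x) (gv_le X x) (X.gv y) (gv_le X y)
      omega
  · intro M' B' φ' _ _ hdisj hsub hφ halive hfin hPP
    have hphi : ∀ A, φ' A ≠ 0 → X.Adm A := by
      intro A hA
      rcases hφ A with h1 | h1
      · apply phi0_ne X
        intro h2
        apply hA
        rw [h1]
        unfold claims
        rw [h2, mul_zero]
      · exact absurd h1 hA
    apply h M' B' φ'
    · refine ⟨?_, ?_, halive, hdisj, hsub, ?_, ?_⟩
      · intro A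
        rcases hφ A with h1 | h1
        · rw [h1]
          unfold claims phi0
          split_ifs <;> positivity
        · rw [h1]
      · intro A hA
        exact ⟨hphi A hA, fun δ h1 => absurd h1 (Nat.not_lt_zero _)⟩
      · intro δ h1
        exact absurd h1 (Nat.not_lt_zero _)
      · intro A hA x hx y hy hxy hfp
        have hd : X.dis x = X.dis y := by
          rcases hfp with h1 | h1 | h1
          · exact h1
          · exact absurd h1 (Nat.not_lt_zero _)
          · exact absurd h1 (Nat.not_lt_zero _)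
        have hsub' : ({x, y} : Finset V) ⊆ A := by
          intro a ha
          rw [Finset.mem_insert, Finset.mem_singleton] at ha
          rcases ha with rfl | rfl
          · exact hx
          · exact hy
        have hT : ({x, y} : Finset V) ∈ X.SS0 :=
          X.mem_SS0_of_adm (hphi A hA) hsub' ⟨x, by simp⟩
        have h1 := hfin A hA s(x, y) (inner_of X hxy hd hT)
          (by rw [Sym2.toFinset_mk_eq]; exact hsub')
        apply h1
        rw [Finset.mem_singleton, Sym2.map_mk]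
    · have hSS : X.SSt 0 (fun _ => ∅) = X.SS0 := by
        unfold SSt
        apply Finset.filter_true_of_mem
        intro S _ δ h1
        exact absurd h1 (Nat.not_lt_zero _)
      rw [hSS]
      rw [claims_eq] at hPP
      refine le_trans ?_ hPP
      have h1 := err_sum X hX hc Mx hMx
      have h2 := mul_le_mul_of_nonneg_left h1 hC.le
      rw [hXR] at h2
      have h3 : C * ((R : ℝ) + 1) * c * err ν E zm D = C * (((R : ℝ) + 1) * (c * err ν E zm D)) := by
        ring
      rw [h3]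
      linarith

end Setup

end Pool.Agent.Helper75.CG
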